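import Pool.Agent.N964.GX.Stm

set_option autoImplicit false

/-!
# Project GX (helper964), part K (helper157): the final choice of `δ`

`int_bound2`, `seq_bd` and `min_le_pow` are copied from `Pool/Agent/N152/MX2E.lean`.
-/

namespace Pool.Agent.N157.GXK

open Complex MeasureTheory Filter Topology
open Pool.Agent.Y23 (Lg)
open Pool.Agent.N964.MX (wt wt_nonneg wt_cont)
open Pool.Agent.N964.GX

/-- the weighted integral -/
theorem int_bound2 {g : ℝ → ℝ} (hg : Continuous g) (hg0 : ∀ t, 0 ≤ g t) {y B : ℝ} {mm : ℝ → ℝ}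
    (hy : 3 ≤ y) (hi : Integrable (fun t => g t * wt y t))
    (hm : ∀ T : ℝ, 1 ≤ T → ∫ t in (-T)..T, g t ≤ T * mm T)
    (hB : ∀ n : ℕ, min 1 (y / 2 ^ n) * mm (2 ^ (n + 1)) * ((n : ℝ) + 1) ^ 2 ≤ B)
    (hB1 : mm 1 ≤ B) : ∫ t : ℝ, g t * wt y t ≤ 9 * B := by
  have hy0 : 0 < y := by linarith
  have hw0 : ∀ t, 0 ≤ wt y t := wt_nonneg hy0.le
  have hc : Continuous (fun t => g t * wt y t) := hg.mul (wt_cont y)
  have hB0 : 0 ≤ B := by
    have h1 := hm 1 le_rfl
    have h2 : 0 ≤ ∫ t in (-(1 : ℝ))..1, g t :=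
      intervalIntegral.integral_nonneg (by norm_num) fun t _ => hg0 t
    linarith
  -- the weight on a block
  have hwb : ∀ (n : ℕ) (t : ℝ), 2 ^ n ≤ |t| → wt y t ≤ min 1 (y / 2 ^ n) / 2 ^ n := by
    intro n t ht
    unfold wt
    have h1 : (0 : ℝ) < 2 ^ n := by positivity
    have h2 : (2 : ℝ) ^ n ≤ 1 + |t| := by linarith
    have h3 : min 1 (y / (1 + |t|)) ≤ min 1 (y / 2 ^ n) := by
      refine min_le_min le_rfl ?_
      gcongr
    have h4 : 0 ≤ min 1 (y / 2 ^ n) := le_min zero_le_one (by positivity)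
    calc min 1 (y / (1 + |t|)) / (1 + |t|) ≤ min 1 (y / 2 ^ n) / (1 + |t|) := by gcongr
      _ ≤ _ := by gcongr
  have hblock : ∀ n : ℕ, (∫ t in (-(2 : ℝ) ^ (n + 1))..(-(2 : ℝ) ^ n), g t * wt y t) +
      (∫ t in ((2 : ℝ) ^ n)..(2 ^ (n + 1)), g t * wt y t) ≤ 2 * B / ((n : ℝ) + 1) ^ 2 := by
    intro n
    have hp1 : (1 : ℝ) ≤ 2 ^ n := one_le_pow₀ (by norm_num)
    have hp2 : (2 : ℝ) ^ (n + 1) = 2 * 2 ^ n := by rw [pow_succ]; ring
    set c := min 1 (y / 2 ^ n) / 2 ^ n with hcdef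
    have hc0 : 0 ≤ c := by
      have : 0 ≤ min 1 (y / 2 ^ n) := le_min zero_le_one (by positivity)
      positivity
    have i1 : ∫ t in (-(2 : ℝ) ^ (n + 1))..(-(2 : ℝ) ^ n), g t * wt y t ≤
        ∫ t in (-(2 : ℝ) ^ (n + 1))..(-(2 : ℝ) ^ n), c * g t := by
      refine intervalIntegral.integral_mono_on (by linarith) (hc.intervalIntegrable _ _)
        ((continuous_const.mul hg).intervalIntegrable _ _) ?_
      intro t ht
      rw [Set.mem_Icc] at ht
      have := hwb n t (by rw [abs_of_nonpos (by linarith [ht.2])]; linarith [ht.2])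
      have h0 := hg0 t
      nlinarith
    have i2 : ∫ t in ((2 : ℝ) ^ n)..(2 ^ (n + 1)), g t * wt y t ≤
        ∫ t in ((2 : ℝ) ^ n)..(2 ^ (n + 1)), c * g t := by
      refine intervalIntegral.integral_mono_on (by linarith) (hc.intervalIntegrable _ _)
        ((continuous_const.mul hg).intervalIntegrable _ _) ?_
      intro t ht
      rw [Set.mem_Icc] at ht
      have := hwb n t (by rw [abs_of_nonneg (by linarith [ht.1])]; linarith [ht.1])
      have h0 := hg0 t
      nlinarith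
    rw [intervalIntegral.integral_const_mul] at i1 i2
    have i3 : (∫ t in (-(2 : ℝ) ^ (n + 1))..(-(2 : ℝ) ^ n), g t) +
        (∫ t in ((2 : ℝ) ^ n)..(2 ^ (n + 1)), g t) ≤
        ∫ t in (-(2 : ℝ) ^ (n + 1))..(2 ^ (n + 1)), g t := by
      have s2 : ∫ t in (-(2 : ℝ) ^ (n + 1))..(2 ^ (n + 1)), g t =
          (∫ t in (-(2 : ℝ) ^ (n + 1))..(-(2 : ℝ) ^ n), g t) +
          (∫ t in (-(2 : ℝ) ^ n)..(2 ^ n), g t) + (∫ t in ((2 : ℝ) ^ n)..(2 ^ (n + 1)), g t) := by
        rw [intervalIntegral.integral_add_adjacent_intervals (hg.intervalIntegrable _ _)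
            (hg.intervalIntegrable _ _),
          intervalIntegral.integral_add_adjacent_intervals (hg.intervalIntegrable _ _)
            (hg.intervalIntegrable _ _)]
      have s3 : 0 ≤ ∫ t in (-(2 : ℝ) ^ n)..(2 ^ n), g t :=
        intervalIntegral.integral_nonneg (by linarith) fun t _ => hg0 t
      linarith
    have i4 := hm (2 ^ (n + 1)) (by linarith)
    have hBn := hB n
    have hn1 : (0 : ℝ) < ((n : ℝ) + 1) ^ 2 := by positivity
    calc _ ≤ c * ∫ t in (-(2 : ℝ) ^ (n + 1))..(2 ^ (n + 1)), g t := by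
          have := mul_le_mul_of_nonneg_left i3 hc0
          linarith
      _ ≤ c * (2 ^ (n + 1) * mm (2 ^ (n + 1))) := mul_le_mul_of_nonneg_left i4 hc0
      _ = 2 * (min 1 (y / 2 ^ n) * mm (2 ^ (n + 1))) := by
          have h2 : (2 : ℝ) ^ n ≠ 0 := by positivity
          have h3 : c * 2 ^ (n + 1) = 2 * min 1 (y / 2 ^ n) := by
            rw [hcdef, hp2]
            field_simp
          calc c * (2 ^ (n + 1) * mm (2 ^ (n + 1))) = (c * 2 ^ (n + 1)) * mm (2 ^ (n + 1)) := by
                ring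
            _ = _ := by rw [h3]; ring
      _ ≤ 2 * (B / ((n : ℝ) + 1) ^ 2) := by
          refine mul_le_mul_of_nonneg_left ?_ (by norm_num)
          rw [le_div_iff₀ hn1]
          exact hBn
      _ = _ := by ring
  have hbase : ∫ t in (-(2 : ℝ) ^ 0)..(2 ^ 0), g t * wt y t ≤ B := by
    rw [pow_zero]
    have i1 : ∫ t in (-(1 : ℝ))..1, g t * wt y t ≤ ∫ t in (-(1 : ℝ))..1, g t := by
      refine intervalIntegral.integral_mono_on (by norm_num) (hc.intervalIntegrable _ _)
        (hg.intervalIntegrable _ _) ?_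
      intro t ht
      have h1 : wt y t ≤ 1 := by
        unfold wt
        rw [div_le_one (by positivity)]
        have := abs_nonneg t
        exact (min_le_left _ _).trans (by linarith)
      have h0 := hg0 t
      nlinarith
    have i2 := hm 1 le_rfl
    linarith
  -- telescoping
  have key : ∀ n : ℕ, ∫ t in (-(2 : ℝ) ^ n)..(2 ^ n), g t * wt y t ≤
      B * (5 - 4 / ((n : ℝ) + 1)) := by
    intro n
    induction n with
    | zero =>
      refine hbase.trans (le_of_eq ?_)
      norm_num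
    | succ n ih =>
      have hp1 : (1 : ℝ) ≤ 2 ^ n := one_le_pow₀ (by norm_num)
      have s2 : ∫ t in (-(2 : ℝ) ^ (n + 1))..(2 ^ (n + 1)), g t * wt y t =
          (∫ t in (-(2 : ℝ) ^ (n + 1))..(-(2 : ℝ) ^ n), g t * wt y t) +
          (∫ t in (-(2 : ℝ) ^ n)..(2 ^ n), g t * wt y t) +
          (∫ t in ((2 : ℝ) ^ n)..(2 ^ (n + 1)), g t * wt y t) := by
        rw [intervalIntegral.integral_add_adjacent_intervals (hc.intervalIntegrable _ _)
            (hc.intervalIntegrable _ _),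
          intervalIntegral.integral_add_adjacent_intervals (hc.intervalIntegrable _ _)
            (hc.intervalIntegrable _ _)]
      have hb := hblock n
      have h1 : 2 * B / ((n : ℝ) + 1) ^ 2 ≤
          B * (4 / ((n : ℝ) + 1) - 4 / ((n : ℝ) + 1 + 1)) := by
        have h2 : 2 / ((n : ℝ) + 1) ^ 2 ≤ 4 / ((n : ℝ) + 1) - 4 / ((n : ℝ) + 1 + 1) := by
          rw [div_sub_div _ _ (by positivity) (by positivity),
            div_le_div_iff₀ (by positivity) (by positivity)]
          have : (0 : ℝ) ≤ n := Nat.cast_nonneg n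
          nlinarith
        calc 2 * B / ((n : ℝ) + 1) ^ 2 = B * (2 / ((n : ℝ) + 1) ^ 2) := by ring
          _ ≤ _ := mul_le_mul_of_nonneg_left h2 hB0
      rw [s2]
      push_cast
      nlinarith
  have hlim : Tendsto (fun n : ℕ => ∫ t in (-(2 : ℝ) ^ n)..(2 ^ n), g t * wt y t) atTop
      (𝓝 (∫ t : ℝ, g t * wt y t)) := by
    have h1 : Tendsto (fun n : ℕ => (2 : ℝ) ^ n) atTop atTop :=
      tendsto_pow_atTop_atTop_of_one_lt (by norm_num)
    exact intervalIntegral_tendsto_integral hi (tendsto_neg_atTop_atBot.comp h1) h1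
  refine le_of_tendsto hlim (Eventually.of_forall fun n => (key n).trans ?_)
  have h1 : 0 ≤ 4 / ((n : ℝ) + 1) := by positivity
  nlinarith

/-- a bounded sequence -/
lemma seq_bd (K : ℝ) : ∃ B : ℝ, 1 ≤ B ∧ ∀ n : ℕ, (1 / Real.sqrt 2) ^ n *
    Real.exp (K * (2 * (n : ℝ) + 3) ^ (2 / 3 : ℝ)) * ((n : ℝ) + 1) ^ 2 ≤ B := by
  have ht : Tendsto (fun n : ℕ => (1 / Real.sqrt 2) ^ n *
      Real.exp (K * (2 * (n : ℝ) + 3) ^ (2 / 3 : ℝ)) * ((n : ℝ) + 1) ^ 2) atTop (𝓝 0) := by
    have hq : Tendsto (fun x : ℝ => Real.exp (-(x * (Real.log 2 / 2)) +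
        K * (2 * x + 3) ^ (2 / 3 : ℝ) + 2 * Real.log (x + 1))) atTop (𝓝 0) := by
      refine Real.tendsto_exp_atBot.comp ?_
      have ho : (fun x : ℝ => K * (2 * x + 3) ^ (2 / 3 : ℝ) + 2 * Real.log (x + 1))
          =o[atTop] fun x : ℝ => x := by
        have l1 : (fun x : ℝ => (2 * x + 3) ^ (2 / 3 : ℝ)) =o[atTop] fun x : ℝ => (2 * x + 3) := by
          have h2 : (fun x : ℝ => x ^ (2 / 3 : ℝ)) =o[atTop] fun x : ℝ => x := by
            rw [Asymptotics.isLittleO_iff_tendsto' (by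
              filter_upwards [eventually_gt_atTop 0] with x hx h0
              exact absurd h0 hx.ne')]
            refine (tendsto_rpow_neg_atTop (y := 1 / 3) (by norm_num)).congr' ?_
            filter_upwards [eventually_gt_atTop 0] with x hx
            rw [← Real.rpow_sub_one hx.ne']
            norm_num
          exact h2.comp_tendsto (tendsto_atTop_add_const_right _ _
            (tendsto_id.const_mul_atTop (by norm_num)))
        have l2 : (fun x : ℝ => Real.log (x + 1)) =o[atTop] fun x : ℝ => x + 1 := by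
          have h2 : (fun x : ℝ => Real.log x) =o[atTop] fun x : ℝ => x :=
            Real.isLittleO_log_id_atTop
          exact h2.comp_tendsto (tendsto_atTop_add_const_right _ _ tendsto_id)
        have b1 : (fun x : ℝ => (2 * x + 3)) =O[atTop] fun x : ℝ => x := by
          refine Asymptotics.IsBigO.of_bound 5 ?_
          filter_upwards [eventually_ge_atTop 1] with x hx
          rw [Real.norm_eq_abs, Real.norm_eq_abs, abs_of_nonneg (by linarith),
            abs_of_nonneg (by linarith)]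
          linarith
        have b2 : (fun x : ℝ => (x + 1)) =O[atTop] fun x : ℝ => x := by
          refine Asymptotics.IsBigO.of_bound 5 ?_
          filter_upwards [eventually_ge_atTop 1] with x hx
          rw [Real.norm_eq_abs, Real.norm_eq_abs, abs_of_nonneg (by linarith),
            abs_of_nonneg (by linarith)]
          linarith
        exact ((l1.trans_isBigO b1).const_mul_left K).add ((l2.trans_isBigO b2).const_mul_left 2)
      have hc : 0 < Real.log 2 / 4 := by have := Real.log_pos one_lt_two; positivity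
      have he := ho.def hc
      have hlin : Tendsto (fun x : ℝ => -(x * (Real.log 2 / 4))) atTop atBot :=
        tendsto_neg_atTop_atBot.comp (tendsto_id.atTop_mul_const hc)
      refine tendsto_atBot_mono' _ ?_ hlin
      filter_upwards [he, eventually_ge_atTop 0] with x hx hx0
      rw [Real.norm_eq_abs, Real.norm_eq_abs, abs_of_nonneg hx0] at hx
      have := (abs_le.1 hx).2
      linarith
    refine (hq.comp tendsto_natCast_atTop_atTop).congr fun n => ?_
    simp only [Function.comp]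
    have hn : (0 : ℝ) < (n : ℝ) + 1 := by positivity
    rw [Real.exp_add, Real.exp_add]
    have e1 : Real.exp (-((n : ℝ) * (Real.log 2 / 2))) = (1 / Real.sqrt 2) ^ n := by
      have : (1 / Real.sqrt 2) = Real.exp (-(Real.log 2 / 2)) := by
        rw [Real.exp_neg, Real.sqrt_eq_rpow, Real.rpow_def_of_pos (by norm_num), one_div]
        congr 2
        ring
      rw [this, ← Real.exp_nat_mul]
      congr 1
      ring
    have e2 : Real.exp (2 * Real.log ((n : ℝ) + 1)) = ((n : ℝ) + 1) ^ 2 := by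
      have : 2 * Real.log ((n : ℝ) + 1) = Real.log (((n : ℝ) + 1) ^ 2) := by
        rw [Real.log_pow]; norm_num
      rw [this, Real.exp_log (by positivity)]
    rw [e1, e2]
  obtain ⟨B, hB⟩ := ht.bddAbove_range
  exact ⟨max B 1, le_max_right _ _, fun n => (hB ⟨n, rfl⟩).trans (le_max_left _ _)⟩

lemma min_le_pow {y : ℝ} {n : ℕ} (h : y ^ 2 ≤ 2 ^ n) :
    min 1 (y / 2 ^ n) ≤ (1 / Real.sqrt 2) ^ n := by
  refine (min_le_right _ _).trans ?_
  have h2 : Real.sqrt 2 ^ n * Real.sqrt 2 ^ n = 2 ^ n := by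
    rw [← mul_pow, Real.mul_self_sqrt (by norm_num)]
  have h3 : y ≤ Real.sqrt 2 ^ n := by
    have : y ^ 2 ≤ (Real.sqrt 2 ^ n) ^ 2 := by rw [sq (Real.sqrt 2 ^ n), h2]; exact h
    exact le_of_sq_le_sq this (by positivity)
  rw [one_div, inv_pow, ← h2, div_le_iff₀ (by positivity)]
  have h4 : (0 : ℝ) < Real.sqrt 2 ^ n := by positivity
  have h5 : (Real.sqrt 2 ^ n)⁻¹ * (Real.sqrt 2 ^ n * Real.sqrt 2 ^ n) = Real.sqrt 2 ^ n := by
    field_simp
  rw [h5]; exact h3


section cases
variable {f : ℝ → ℝ}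

theorem sym_small (hf : Continuous f) (hf0 : ∀ t, 0 ≤ f t) {K E T : ℝ} (hE : ∀ t, |t| ≤ K → f t ≤ E)
    (hT : 0 ≤ T) (hTK : T ≤ K) : ∫ t in (-T)..T, f t ≤ 2 * T * E := by
  have h1 : ∫ t in (-T)..T, f t ≤ ∫ _t in (-T)..T, E := by
    refine intervalIntegral.integral_mono_on (by linarith) (hf.intervalIntegrable _ _)
      (continuous_const.intervalIntegrable _ _) ?_
    intro t ht
    apply hE
    rw [abs_le]
    constructor <;> linarith [ht.1, ht.2]
  rw [intervalIntegral.integral_const, smul_eq_mul] at h1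
  linarith

theorem sym_mid (hf : Continuous f) (hf0 : ∀ t, 0 ≤ f t) {K E E2 T : ℝ} (hK : 0 ≤ K)
    (hE : ∀ t, |t| ≤ K → f t ≤ E) (hE0 : 0 ≤ E)
    (hTK : K ≤ T) (h2 : ∫ t in K..T, f t ≤ T * E2) (h3 : ∫ t in (-T)..(-K), f t ≤ T * E2) :
    ∫ t in (-T)..T, f t ≤ T * (2 * E + 2 * E2) := by
  have h1 := sym_small hf hf0 hE hK le_rfl
  have e : ∫ t in (-T)..T, f t = (∫ t in (-T)..(-K), f t) + (∫ t in (-K)..K, f t) +
      (∫ t in K..T, f t) := by
    rw [intervalIntegral.integral_add_adjacent_intervals (hf.intervalIntegrable _ _)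
        (hf.intervalIntegrable _ _),
      intervalIntegral.integral_add_adjacent_intervals (hf.intervalIntegrable _ _)
        (hf.intervalIntegrable _ _)]
  rw [e]
  nlinarith

theorem sym_big (hf : Continuous f) (hf0 : ∀ t, 0 ≤ f t) {S D E T : ℝ} (hS : 0 ≤ S)
    (hD : ∫ t in (-S)..S, f t ≤ S * D) (hD0 : 0 ≤ D) (hST : S ≤ T)
    (hE : ∀ t, S ≤ |t| → |t| ≤ T → f t ≤ E) (hE0 : 0 ≤ E) :
    ∫ t in (-T)..T, f t ≤ T * (D + 2 * E) := by
  have e : ∫ t in (-T)..T, f t = (∫ t in (-T)..(-S), f t) + (∫ t in (-S)..S, f t) +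
      (∫ t in S..T, f t) := by
    rw [intervalIntegral.integral_add_adjacent_intervals (hf.intervalIntegrable _ _)
        (hf.intervalIntegrable _ _),
      intervalIntegral.integral_add_adjacent_intervals (hf.intervalIntegrable _ _)
        (hf.intervalIntegrable _ _)]
  have h1 : ∫ t in S..T, f t ≤ ∫ _t in S..T, E := by
    refine intervalIntegral.integral_mono_on hST (hf.intervalIntegrable _ _)
      (continuous_const.intervalIntegrable _ _) ?_
    intro t ht
    have h0 : 0 ≤ t := hS.trans ht.1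
    apply hE
    · rw [abs_of_nonneg h0]; exact ht.1
    · rw [abs_of_nonneg h0]; exact ht.2
  have h2 : ∫ t in (-T)..(-S), f t ≤ ∫ _t in (-T)..(-S), E := by
    refine intervalIntegral.integral_mono_on (by linarith) (hf.intervalIntegrable _ _)
      (continuous_const.intervalIntegrable _ _) ?_
    intro t ht
    have h0 : t ≤ 0 := by linarith [ht.2]
    apply hE
    · rw [abs_of_nonpos h0]; linarith [ht.2]
    · rw [abs_of_nonpos h0]; linarith [ht.1]
  rw [intervalIntegral.integral_const, smul_eq_mul] at h1 h2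
  rw [e]
  have h3 : (T - S) * E ≤ T * E := by nlinarith
  have h4 : S * D ≤ T * D := by nlinarith
  nlinarith

end cases

theorem Lg_mono' {a b : ℝ} (ha : 0 ≤ a) (hab : a ≤ b) : Lg a ≤ Lg b := by
  unfold Lg
  rw [abs_of_nonneg ha, abs_of_nonneg (ha.trans hab)]
  exact Real.log_le_log (by linarith) (by linarith)

/-- the bound for the symmetric integrals -/
theorem sym_all {f : ℝ → ℝ} (hf : Continuous f) (hf0 : ∀ t, 0 ≤ f t) {K E E2 U θ : ℝ} (hK : 3 ≤ K)
    (hθ : 0 ≤ θ) (hE0 : 0 ≤ E) (hE20 : 0 ≤ E2) (hE : ∀ t, |t| ≤ K → f t ≤ E)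
    (hmid : ∀ T, K ≤ T → Lg T ≤ U →
      (∫ t in K..T, f t) ≤ T * E2 ∧ (∫ t in (-T)..(-K), f t) ≤ T * E2)
    (htail : ∀ t, 3 ≤ |t| → U ≤ Lg t → f t ≤ |t| ^ θ) (hU : K + 3 ≤ Real.exp U) (T : ℝ) (hT : 1 ≤ T) :
    ∫ t in (-T)..T, f t ≤ T * (2 * E + 2 * E2 + if Lg T ≤ U then 0 else 2 * T ^ θ) := by
  have hT0 : 0 ≤ T := by linarith
  rcases le_total T K with hTK | hTK
  · have h1 := sym_small hf hf0 hE hT0 hTK
    refine h1.trans ?_
    split_ifs
    · nlinarith
    · have : 0 ≤ T ^ θ := Real.rpow_nonneg hT0 _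
      have h2 : 0 ≤ T * (2 * E2 + 2 * T ^ θ) := by positivity
      nlinarith
  · by_cases hc : Lg T ≤ U
    · rw [if_pos hc, add_zero]
      have h1 := hmid T hTK hc
      exact sym_mid hf hf0 (by linarith) hE hE0 hTK h1.1 h1.2
    · rw [if_neg hc]
      rw [not_le] at hc
      set S := Real.exp U - 3 with hS
      have hSK : K ≤ S := by linarith
      have hS0 : 0 ≤ S := by linarith
      have hLS : Lg S = U := by
        unfold Lg
        rw [abs_of_nonneg hS0, hS]
        have : (3 : ℝ) + (Real.exp U - 3) = Real.exp U := by ring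
        rw [this, Real.log_exp]
      have hST : S ≤ T := by
        by_contra hlt
        rw [not_le] at hlt
        have h2 := Lg_mono' hT0 hlt.le
        rw [hLS] at h2
        linarith
      have h1 := hmid S hSK hLS.le
      have h2 := sym_mid hf hf0 (by linarith) hE hE0 hSK h1.1 h1.2
      refine sym_big hf hf0 hS0 h2 (by positivity) hST ?_ (Real.rpow_nonneg hT0 _)
      intro t h3 h4
      have h5 : U ≤ Lg t := by
        rw [← hLS]
        have : Lg t = Lg |t| := by
          unfold Lg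
          rw [abs_abs]
        rw [this]
        exact Lg_mono' hS0 h3
      refine (htail t (by linarith) h5).trans ?_
      exact Real.rpow_le_rpow (abs_nonneg t) h4 hθ

/-- the sequence without the tail -/
theorem seq_small {B0 : ℝ} (hB0 : ∀ n : ℕ, (1 / Real.sqrt 2) ^ n * ((n : ℝ) + 1) ^ 2 ≤ B0) {y : ℝ}
    (hy : 3 ≤ y) (n : ℕ) : min 1 (y / 2 ^ n) * ((n : ℝ) + 1) ^ 2 ≤ 16 * Real.log y ^ 2 + B0 := by
  have hy0 : 0 < y := by linarith
  have hL : 1 ≤ Real.log y := by
    rw [Real.le_log_iff_exp_le hy0]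
    have := Real.exp_one_lt_d9
    linarith
  have hB : 0 ≤ B0 := le_trans (by positivity) (hB0 0)
  rcases le_or_gt (y ^ 2) (2 ^ n) with h | h
  · have h1 := min_le_pow h
    have h2 : min 1 (y / 2 ^ n) * ((n : ℝ) + 1) ^ 2 ≤ (1 / Real.sqrt 2) ^ n * ((n : ℝ) + 1) ^ 2 := by
      gcongr
    have := hB0 n
    nlinarith [sq_nonneg (Real.log y)]
  · have h1 : (n : ℝ) * Real.log 2 < 2 * Real.log y := by
      have h2 := Real.log_lt_log (by positivity) h
      rw [Real.log_pow, Real.log_pow] at h2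
      exact_mod_cast h2
    have h2 : (n : ℝ) ≤ 3 * Real.log y := by
      have := Real.log_two_gt_d9
      nlinarith
    have h3 : ((n : ℝ) + 1) ^ 2 ≤ 16 * Real.log y ^ 2 := by
      have h4 : (0 : ℝ) ≤ n := Nat.cast_nonneg n
      nlinarith
    have h4 : min 1 (y / 2 ^ n) ≤ 1 := min_le_left _ _
    have h5 : 0 ≤ ((n : ℝ) + 1) ^ 2 := by positivity
    nlinarith

/-- the tail of the sequence -/
theorem seq_tail {k : ℕ} {y U : ℝ} (hy : 3 ≤ y) (hU : 4 * ((k : ℝ) + 2) * Real.log y ≤ U) (n : ℕ)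
    (hn : U < Lg (2 ^ (n + 1))) :
    min 1 (y / 2 ^ n) * (2 * ((2 : ℝ) ^ (n + 1)) ^ (1 - 1 / ((k : ℝ) + 2))) * ((n : ℝ) + 1) ^ 2 ≤
      128 * ((k : ℝ) + 2) ^ 2 := by
  have hy0 : 0 < y := by linarith
  have hk : (0 : ℝ) ≤ k := Nat.cast_nonneg k
  have hL : 1 ≤ Real.log y := by
    rw [Real.le_log_iff_exp_le hy0]
    have := Real.exp_one_lt_d9
    linarith
  set N : ℝ := (2 : ℝ) ^ (n + 1) with hN
  have hN1 : 1 ≤ N := one_le_pow₀ (by norm_num)
  have hN0 : 0 < N := by linarith
  set u := Real.log N with hu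
  have hun : u = ((n : ℝ) + 1) * Real.log 2 := by
    rw [hu, hN, Real.log_pow]
    push_cast
    ring
  have hl2 := Real.log_two_gt_d9
  have hu0 : 0 ≤ u := Real.log_nonneg hN1
  have hn2 : (n : ℝ) + 1 ≤ 2 * u := by
    rw [hun]
    have : (0 : ℝ) ≤ n := Nat.cast_nonneg n
    nlinarith
  have hLg : Lg N ≤ u + 2 := by
    unfold Lg
    rw [abs_of_pos hN0]
    have h1 : Real.log (3 + N) ≤ Real.log (4 * N) := Real.log_le_log (by linarith) (by linarith)
    rw [Real.log_mul (by norm_num) hN0.ne'] at h1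
    have h2 : Real.log 4 ≤ 2 := by
      have h3 : Real.log 4 = 2 * Real.log 2 := by
        have : (4 : ℝ) = 2 ^ 2 := by norm_num
        rw [this, Real.log_pow]
        norm_num
      rw [h3]
      have := Real.log_two_lt_d9
      linarith
    linarith
  have hu2 : 2 * ((k : ℝ) + 2) * Real.log y ≤ u := by
    have h5 := mul_le_mul (by linarith : (2 : ℝ) ≤ (k : ℝ) + 2) hL zero_le_one (by positivity)
    linarith
  have h1 : min 1 (y / 2 ^ n) ≤ 2 * y / N := by
    refine (min_le_right _ _).trans (le_of_eq ?_)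
    rw [hN, pow_succ]
    field_simp
  have h2 : N ^ (1 - 1 / ((k : ℝ) + 2)) = N * Real.exp (-(u / ((k : ℝ) + 2))) := by
    rw [Real.rpow_sub hN0, Real.rpow_one, div_eq_mul_inv, ← Real.rpow_neg hN0.le,
      Real.rpow_def_of_pos hN0]
    congr 2
    rw [← hu]
    ring
  have h3 : u ^ 2 ≤ 8 * ((k : ℝ) + 2) ^ 2 * Real.exp (u / (2 * ((k : ℝ) + 2))) := by
    have h4 := Real.quadratic_le_exp_of_nonneg (x := u / (2 * ((k : ℝ) + 2))) (by positivity)
    have h5 : (u / (2 * ((k : ℝ) + 2))) ^ 2 * (4 * ((k : ℝ) + 2) ^ 2) = u ^ 2 := by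
      field_simp
      ring
    have h6 : 0 ≤ u / (2 * ((k : ℝ) + 2)) := by positivity
    have h7 : 0 ≤ (4 * ((k : ℝ) + 2) ^ 2) := by positivity
    have h8 : (u / (2 * ((k : ℝ) + 2))) ^ 2 ≤ 2 * Real.exp (u / (2 * ((k : ℝ) + 2))) := by linarith
    have h9 := mul_le_mul_of_nonneg_right h8 h7
    rw [h5] at h9
    linarith
  have h4 : y * Real.exp (-(u / (2 * ((k : ℝ) + 2)))) ≤ 1 := by
    have h5 : Real.log y ≤ u / (2 * ((k : ℝ) + 2)) := by
      rw [le_div_iff₀ (by positivity)]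
      linarith
    calc y * Real.exp (-(u / (2 * ((k : ℝ) + 2)))) ≤ y * Real.exp (-Real.log y) := by gcongr
      _ = 1 := by rw [Real.exp_neg, Real.exp_log hy0, mul_inv_cancel₀ hy0.ne']
  have hr0 : 0 ≤ 2 * N ^ (1 - 1 / ((k : ℝ) + 2)) := by positivity
  calc min 1 (y / 2 ^ n) * (2 * N ^ (1 - 1 / ((k : ℝ) + 2))) * ((n : ℝ) + 1) ^ 2
      ≤ (2 * y / N) * (2 * (N * Real.exp (-(u / ((k : ℝ) + 2))))) * (2 * u) ^ 2 := by
        rw [← h2]
        have h0 : 0 ≤ (n : ℝ) + 1 := by positivity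
        gcongr
    _ = 16 * y * Real.exp (-(u / ((k : ℝ) + 2))) * u ^ 2 := by
        field_simp
        ring
    _ ≤ 16 * y * Real.exp (-(u / ((k : ℝ) + 2))) *
        (8 * ((k : ℝ) + 2) ^ 2 * Real.exp (u / (2 * ((k : ℝ) + 2)))) := by gcongr
    _ = 128 * ((k : ℝ) + 2) ^ 2 * (y * Real.exp (-(u / (2 * ((k : ℝ) + 2))))) := by
        have h5 : Real.exp (-(u / ((k : ℝ) + 2))) * Real.exp (u / (2 * ((k : ℝ) + 2))) =
            Real.exp (-(u / (2 * ((k : ℝ) + 2)))) := by
          rw [← Real.exp_add]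
          congr 1
          field_simp
          ring
        rw [← h5]
        ring
    _ ≤ 128 * ((k : ℝ) + 2) ^ 2 * 1 := by gcongr
    _ = _ := by ring

/-- the final computation with all the exponentials -/
theorem final_bound {K Q LL L B0 Ck κ E m X y s B : ℝ} (hK : 3 ≤ K) (hQ : 1 / 2 ≤ Q) (hLL : 1 ≤ LL)
    (hLLQ : LL ≤ 8 * Q) (hL : L = Real.exp LL) (hB0 : 0 ≤ B0) (hCk : 0 ≤ Ck) (hκ : 0 ≤ κ) (hm : m ≤ 2 * LL)
    (hm0 : 0 ≤ m) (hX : X ≤ κ * Q) (hX0 : 0 ≤ X)
    (hE : E = 2 * Real.exp (K * (1 + m)) + 2 * Real.exp (K * X)) (hB : B = E * (16 * L ^ 2 + B0) + Ck)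
    (hs : 0 ≤ s) :
    K * s + K * (s * Real.exp Q) * (9 * B) ≤
      s * Real.exp ((2 * (10 * K) + 1 + (2 * (19 + K + B0 + Ck) + 16 * K + 16 + K * κ)) * Q) := by
  set C1 := 2 * (19 + K + B0 + Ck) + 16 * K + 16 + K * κ with hC1
  have hC10 : 0 ≤ C1 := by positivity
  have hE1 : E ≤ Real.exp (2 + K + 2 * K * LL + K * κ * Q) := by
    have h1 : Real.exp (K * (1 + m)) ≤ Real.exp (K + 2 * K * LL + K * κ * Q) := by
      apply Real.exp_le_exp.2
      have : 0 ≤ K * κ * Q := by positivity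
      have := mul_le_mul_of_nonneg_left hm (by linarith : (0 : ℝ) ≤ K)
      linarith
    have h2 : Real.exp (K * X) ≤ Real.exp (K + 2 * K * LL + K * κ * Q) := by
      apply Real.exp_le_exp.2
      have : 0 ≤ K + 2 * K * LL := by positivity
      have := mul_le_mul_of_nonneg_left hX (by linarith : (0 : ℝ) ≤ K)
      linarith
    have h3 : (4 : ℝ) ≤ Real.exp 2 := by
      have := Real.exp_one_gt_d9
      have e2 : Real.exp 2 = Real.exp 1 * Real.exp 1 := by rw [← Real.exp_add]; norm_num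
      rw [e2]
      nlinarith
    have e1 : Real.exp (2 + K + 2 * K * LL + K * κ * Q) =
        Real.exp 2 * Real.exp (K + 2 * K * LL + K * κ * Q) := by
      rw [← Real.exp_add]
      congr 1
      ring
    rw [hE, e1]
    have h5 := Real.exp_pos (K + 2 * K * LL + K * κ * Q)
    have h6 := mul_le_mul_of_nonneg_right h3 h5.le
    linarith
  have hL1 : 16 * L ^ 2 + B0 ≤ Real.exp (16 + B0 + 2 * LL) := by
    have h1 : (16 : ℝ) + B0 ≤ Real.exp (16 + B0) := by
      have := Real.add_one_le_exp (16 + B0)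
      linarith
    have h2 : L ^ 2 = Real.exp (2 * LL) := by
      rw [hL, ← Real.exp_nat_mul]
      norm_num
    have h3 : 1 ≤ Real.exp (2 * LL) := Real.one_le_exp (by linarith)
    have e1 : Real.exp (16 + B0 + 2 * LL) = Real.exp (16 + B0) * Real.exp (2 * LL) := by
      rw [← Real.exp_add]
    rw [h2, e1]
    have h5 := mul_le_mul_of_nonneg_right h1 (by linarith : 0 ≤ Real.exp (2 * LL))
    have h6 := le_mul_of_one_le_right hB0 h3
    linarith
  have hCk1 : Ck ≤ Real.exp Ck := by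
    have := Real.add_one_le_exp Ck
    linarith
  have hB1 : B ≤ 2 * Real.exp (18 + K + B0 + Ck + (2 * K + 2) * LL + K * κ * Q) := by
    have h1 : E * (16 * L ^ 2 + B0) ≤ Real.exp (2 + K + 2 * K * LL + K * κ * Q) *
        Real.exp (16 + B0 + 2 * LL) := by
      apply mul_le_mul hE1 hL1 (by positivity) (Real.exp_pos _).le
    rw [← Real.exp_add] at h1
    have h2 : Real.exp (2 + K + 2 * K * LL + K * κ * Q + (16 + B0 + 2 * LL)) ≤
        Real.exp (18 + K + B0 + Ck + (2 * K + 2) * LL + K * κ * Q) := by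
      apply Real.exp_le_exp.2
      linarith
    have h3 : Real.exp Ck ≤ Real.exp (18 + K + B0 + Ck + (2 * K + 2) * LL + K * κ * Q) := by
      apply Real.exp_le_exp.2
      have : 0 ≤ (2 * K + 2) * LL := by positivity
      have : 0 ≤ K * κ * Q := by positivity
      linarith
    rw [hB]
    linarith
  have hB2 : B ≤ Real.exp (C1 * Q) := by
    have h1 : (2 : ℝ) ≤ Real.exp 1 := by
      have := Real.exp_one_gt_d9
      linarith
    have h2 : 2 * Real.exp (18 + K + B0 + Ck + (2 * K + 2) * LL + K * κ * Q) ≤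
        Real.exp (19 + K + B0 + Ck + (2 * K + 2) * LL + K * κ * Q) := by
      have e1 : Real.exp (19 + K + B0 + Ck + (2 * K + 2) * LL + K * κ * Q) =
          Real.exp 1 * Real.exp (18 + K + B0 + Ck + (2 * K + 2) * LL + K * κ * Q) := by
        rw [← Real.exp_add]
        congr 1
        ring
      rw [e1]
      exact mul_le_mul_of_nonneg_right h1 (Real.exp_pos _).le
    refine hB1.trans (h2.trans (Real.exp_le_exp.2 ?_))
    rw [hC1]
    have h3 : (2 * K + 2) * LL ≤ (2 * K + 2) * (8 * Q) := by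
      apply mul_le_mul_of_nonneg_left hLLQ (by linarith)
    have h4 := mul_le_mul_of_nonneg_left hQ (by positivity : 0 ≤ 2 * (19 + K + B0 + Ck))
    linarith
  have h10 : 10 * K ≤ Real.exp (10 * K) := by
    have := Real.add_one_le_exp (10 * K)
    linarith
  have hQ0 : 0 ≤ Q := by linarith
  have h11 : Real.exp (10 * K) ≤ Real.exp (2 * (10 * K) * Q) := by
    apply Real.exp_le_exp.2
    have h5 := mul_le_mul_of_nonneg_left hQ (by positivity : 0 ≤ 2 * (10 * K))
    linarith
  have h12 : 1 ≤ Real.exp Q * Real.exp (C1 * Q) := by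
    rw [← Real.exp_add]
    exact Real.one_le_exp (by positivity)
  have h13 : Real.exp Q * B ≤ Real.exp Q * Real.exp (C1 * Q) :=
    mul_le_mul_of_nonneg_left hB2 (Real.exp_pos _).le
  have e3 : Real.exp ((2 * (10 * K) + 1 + C1) * Q) =
      Real.exp (2 * (10 * K) * Q) * (Real.exp Q * Real.exp (C1 * Q)) := by
    rw [← Real.exp_add, ← Real.exp_add]
    congr 1
    ring
  rw [e3]
  have h14 : K + K * Real.exp Q * (9 * B) ≤ 10 * K * (Real.exp Q * Real.exp (C1 * Q)) := by
    have h15 : K ≤ K * (Real.exp Q * Real.exp (C1 * Q)) :=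
      le_mul_of_one_le_right (by linarith) h12
    have h16 := mul_le_mul_of_nonneg_left h13 (by linarith : 0 ≤ 9 * K)
    linarith
  have h17 : 10 * K * (Real.exp Q * Real.exp (C1 * Q)) ≤
      Real.exp (2 * (10 * K) * Q) * (Real.exp Q * Real.exp (C1 * Q)) := by
    apply mul_le_mul_of_nonneg_right (h10.trans h11) (by linarith)
  calc K * s + K * (s * Real.exp Q) * (9 * B) = s * (K + K * Real.exp Q * (9 * B)) := by ring
    _ ≤ s * (Real.exp (2 * (10 * K) * Q) * (Real.exp Q * Real.exp (C1 * Q))) :=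
      mul_le_mul_of_nonneg_left (h14.trans h17) hs

theorem fin : S_fin := by
  intro k g K δ0 hk hK hδ0 hδ04 M hM0 hMc hg hg2 hsm hmid htail
  obtain ⟨B0, hB01, hB0'⟩ := seq_bd 0
  have hB0 : ∀ n : ℕ, (1 / Real.sqrt 2) ^ n * ((n : ℝ) + 1) ^ 2 ≤ B0 := by
    intro n
    have := hB0' n
    simpa using this
  have hB00 : 0 ≤ B0 := by linarith
  have hk0 : (1 : ℝ) ≤ k := by exact_mod_cast hk
  set κ : ℝ := ((k : ℝ) + 1) ^ (k + 1) with hκ
  have hκ0 : 0 ≤ κ := by positivity
  set Ck : ℝ := 128 * ((k : ℝ) + 2) ^ 2 with hCk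
  have hCk0 : 0 ≤ Ck := by positivity
  set Λ : ℝ := max (4 * ((k : ℝ) + 2)) (max (1 / δ0) (K + 3)) with hΛ
  have hΛ1 : 4 * ((k : ℝ) + 2) ≤ Λ := le_max_left _ _
  have hΛ2 : 1 / δ0 ≤ Λ := (le_max_left _ _).trans (le_max_right _ _)
  have hΛ3 : K + 3 ≤ Λ := (le_max_right _ _).trans (le_max_right _ _)
  set C2 := 2 * (10 * K) + 1 + (2 * (19 + K + B0 + Ck) + 16 * K + 16 + K * κ) with hC2
  have hC20 : 0 < C2 := by positivity
  refine ⟨C2 + 2 * (K + 3 / 2 * Real.exp Λ), by positivity, ?_⟩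
  intro y hy
  have hy0 : 0 < y := by linarith
  have hL1 : 1 < Real.log y := by
    rw [Real.lt_log_iff_exp_lt hy0]
    have := Real.exp_one_lt_d9
    linarith
  set L := Real.log y with hL
  set LL := Real.log L with hLL
  have hL0 : 0 < L := by linarith
  have hLL0 : 0 < LL := Real.log_pos hL1
  have hexpLL : L = Real.exp LL := (Real.exp_log hL0).symm
  -- `P`
  set P := L ^ (1 / ((k : ℝ) + 1)) with hP
  have hk1 : (0 : ℝ) < (k : ℝ) + 1 := by positivity
  have hP1 : 1 ≤ P := Real.one_le_rpow hL1.le (by positivity)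
  have hP0 : 0 < P := by linarith
  have hPpow : ∀ j : ℕ, P ^ j = L ^ ((j : ℝ) / ((k : ℝ) + 1)) := by
    intro j
    rw [hP, ← Real.rpow_natCast, ← Real.rpow_mul hL0.le]
    congr 1
    ring
  have hPk1 : P ^ (k + 1) = L := by
    rw [hPpow]
    push_cast
    rw [div_self hk1.ne', Real.rpow_one]
  have hQdef : Qk k y = P ^ k / LL := by
    unfold Qk
    rw [hPpow]
  set Q := Qk k y with hQ
  have hPk_sqrt : Real.exp (LL / 2) ≤ P ^ k := by
    rw [hPpow, Real.rpow_def_of_pos hL0]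
    apply Real.exp_le_exp.2
    rw [← hLL]
    have : (1 : ℝ) / 2 ≤ (k : ℝ) / ((k : ℝ) + 1) := by
      rw [div_le_div_iff₀ (by norm_num) hk1]
      linarith
    have := mul_le_mul_of_nonneg_left this hLL0.le
    linarith
  have hLLQ : LL ≤ 8 * Q := by
    rw [hQdef, ← mul_div_assoc, le_div_iff₀ hLL0]
    have h4 := Real.quadratic_le_exp_of_nonneg (x := LL / 2) (by positivity)
    have h5 : LL * LL = 8 * ((LL / 2) ^ 2 / 2) := by ring
    linarith
  have hQ2 : 1 / 2 ≤ Q := by
    rw [hQdef, le_div_iff₀ hLL0]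
    have h4 := Real.add_one_le_exp (LL / 2)
    linarith
  have hQ0 : 0 ≤ Q := by linarith
  have hsy : Real.sqrt y = Real.exp (L / 2) := by
    rw [Real.sqrt_eq_rpow, Real.rpow_def_of_pos hy0]
    congr 1
    ring
  have hsy0 : 0 ≤ Real.sqrt y := Real.sqrt_nonneg y
  rcases lt_or_ge LL Λ with hcase | hcase
  · -- small `y`
    have h1 := hg2 y (by linarith)
    have h2 : L ≤ Real.exp Λ := by
      rw [hexpLL]
      exact Real.exp_le_exp.2 hcase.le
    have h3 : K * y ^ 2 ≤ Real.sqrt y * Real.exp (K + 3 / 2 * Real.exp Λ) := by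
      have h4 : y = Real.exp L := (Real.exp_log hy0).symm
      have h5 : K * y ^ 2 ≤ Real.exp K * Real.exp (2 * L) := by
        have h6 : y ^ 2 = Real.exp (2 * L) := by
          rw [h4, ← Real.exp_nat_mul]
          norm_num
        rw [h6]
        have h7 := Real.add_one_le_exp K
        exact mul_le_mul_of_nonneg_right (by linarith) (Real.exp_pos (2 * L)).le
      refine h5.trans ?_
      rw [hsy, ← Real.exp_add, ← Real.exp_add]
      apply Real.exp_le_exp.2
      linarith
    refine h1.trans (h3.trans ?_)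
    apply mul_le_mul_of_nonneg_left _ hsy0
    apply Real.exp_le_exp.2
    have h4 := mul_le_mul_of_nonneg_left hQ2 (by positivity : 0 ≤ 2 * (K + 3 / 2 * Real.exp Λ))
    have h5 : 0 ≤ C2 * Q := by positivity
    linarith
  · -- large `y`
    have hLL1 : 1 ≤ LL := by linarith
    set u := P * LL with hu
    have hu0 : 0 < u := by positivity
    have huLL : LL ≤ u := le_mul_of_one_le_left hLL0.le hP1
    set δ := 1 / u with hδ
    have hδp : 0 < δ := by positivity
    have hδδ0 : δ ≤ δ0 := by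
      rw [hδ, div_le_iff₀ hu0]
      have : 1 / δ0 ≤ u := hΛ2.trans (hcase.trans huLL)
      rw [div_le_iff₀ hδ0] at this
      linarith
    have hδ4 : δ ≤ 1 / 4 := hδδ0.trans hδ04
    have hu1 : 1 / δ = u := by rw [hδ, one_div_one_div]
    have hm : Real.log (1 / δ) = LL / ((k : ℝ) + 1) + Real.log LL := by
      rw [hu1, hu, Real.log_mul hP0.ne' hLL0.ne', hP, Real.log_rpow hL0]
      ring
    have hllnn : 0 ≤ Real.log LL := Real.log_nonneg hLL1
    have hm1 : LL / ((k : ℝ) + 1) ≤ Real.log (1 / δ) := by rw [hm]; linarith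
    have hm2 : Real.log (1 / δ) ≤ 2 * LL := by
      rw [hm]
      have h1 : LL / ((k : ℝ) + 1) ≤ LL := div_le_self hLL0.le (by linarith)
      have h2 : Real.log LL ≤ LL := (Real.log_le_sub_one_of_pos hLL0).trans (by linarith)
      linarith
    have hm0 : 0 < Real.log (1 / δ) := lt_of_lt_of_le (by positivity) hm1
    -- `y ^ δ`
    have hδL : δ * L = Q := by
      rw [hQdef, hδ, hu, ← hPk1]
      field_simp
      ring
    -- `Xk`
    have hX0 : 0 ≤ Xk k δ := by
      unfold Xk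
      positivity
    have hX : Xk k δ ≤ κ * Q := by
      have e1 : Xk k δ = u ^ k / Real.log (1 / δ) ^ (k + 1) := by
        unfold Xk
        have hδu : δ ^ k * u ^ k = 1 := by
          rw [← mul_pow, hδ, one_div_mul_cancel hu0.ne', one_pow]
        rw [div_eq_div_iff (by positivity) (by positivity)]
        linear_combination (-(Real.log (1 / δ) ^ (k + 1))) * hδu
      rw [e1, div_le_iff₀ (by positivity)]
      have h1 : (LL / ((k : ℝ) + 1)) ^ (k + 1) ≤ Real.log (1 / δ) ^ (k + 1) :=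
        pow_le_pow_left₀ (by positivity) hm1 _
      have h2 : u ^ k = κ * Q * (LL / ((k : ℝ) + 1)) ^ (k + 1) := by
        rw [hQdef, hu, hκ, div_pow, mul_pow]
        field_simp
        ring
      rw [h2]
      apply mul_le_mul_of_nonneg_left h1 (by positivity)
    -- `1 / δ ^ (k + 2)`
    have hU : 1 / δ ^ (k + 2) = u ^ (k + 2) := by
      have hδu : δ ^ (k + 2) * u ^ (k + 2) = 1 := by
        rw [← mul_pow, hδ, one_div_mul_cancel hu0.ne', one_pow]
      rw [div_eq_iff (by positivity)]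
      linarith
    have hUL : L * LL ≤ 1 / δ ^ (k + 2) := by
      rw [hU, hu, mul_pow]
      have h1 : L ≤ P ^ (k + 2) := by
        rw [pow_succ, hPk1]
        exact le_mul_of_one_le_right hL0.le hP1
      have h2 : LL ≤ LL ^ (k + 2) := le_self_pow₀ hLL1 (by omega)
      exact mul_le_mul h1 h2 hLL0.le (by positivity)
    have hU2 : K + 3 ≤ Real.exp (1 / δ ^ (k + 2)) := by
      have h1 : K + 3 ≤ LL := hΛ3.trans hcase
      have h2 : LL ≤ L * LL := le_mul_of_one_le_left hLL0.le hL1.le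
      have h3 := Real.add_one_le_exp (1 / δ ^ (k + 2))
      linarith
    have hU3 : 4 * ((k : ℝ) + 2) * Real.log y ≤ 1 / δ ^ (k + 2) := by
      refine le_trans ?_ hUL
      rw [← hL]
      have : 4 * ((k : ℝ) + 2) ≤ LL := hΛ1.trans hcase
      have := mul_le_mul_of_nonneg_left this hL0.le
      linarith
    -- the function `mm`
    set E := 2 * Real.exp (K * (1 + Real.log (1 / δ))) + 2 * Real.exp (K * Xk k δ) with hE
    have hE0 : 0 ≤ E := by positivity
    set B := E * (16 * L ^ 2 + B0) + Ck with hB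
    have hθ : 0 ≤ 1 - 1 / ((k : ℝ) + 2) := by
      have : 1 / ((k : ℝ) + 2) ≤ 1 := by
        rw [div_le_one (by positivity)]
        linarith
      linarith
    have hmm := sym_all (f := M δ) (hMc δ hδp hδ4) (hM0 δ) (K := K)
      (E := Real.exp (K * (1 + Real.log (1 / δ)))) (E2 := Real.exp (K * Xk k δ)) (U := 1 / δ ^ (k + 2))
      (θ := 1 - 1 / ((k : ℝ) + 2)) hK hθ (Real.exp_pos _).le (Real.exp_pos _).le
      (fun t ht => hsm δ t hδp hδδ0 ht) (fun T h1 h2 => hmid δ T hδp hδδ0 h1 h2)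
      (fun t h1 h2 => htail δ t hδp hδδ0 h1 h2) hU2
    have hgy := hg δ y hδp hδ4 (by linarith)
    have hBn : ∀ n : ℕ, min 1 (y / 2 ^ n) * (E + if Lg (2 ^ (n + 1)) ≤ 1 / δ ^ (k + 2) then 0 else
        2 * ((2 : ℝ) ^ (n + 1)) ^ (1 - 1 / ((k : ℝ) + 2))) * ((n : ℝ) + 1) ^ 2 ≤ B := by
      intro n
      have h1 := seq_small hB0 hy n
      have hmin : 0 ≤ min 1 (y / 2 ^ n) := le_min zero_le_one (by positivity)
      have h2 : E * (min 1 (y / 2 ^ n) * ((n : ℝ) + 1) ^ 2) ≤ E * (16 * L ^ 2 + B0) :=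
        mul_le_mul_of_nonneg_left h1 hE0
      split_ifs with hc
      · rw [add_zero, hB]
        have e : min 1 (y / 2 ^ n) * E * ((n : ℝ) + 1) ^ 2 =
          E * (min 1 (y / 2 ^ n) * ((n : ℝ) + 1) ^ 2) := by ring
        rw [e]
        linarith
      · rw [not_le] at hc
        have h3 := seq_tail hy hU3 n hc
        rw [hB]
        have e : min 1 (y / 2 ^ n) * (E + 2 * ((2 : ℝ) ^ (n + 1)) ^ (1 - 1 / ((k : ℝ) + 2))) *
            ((n : ℝ) + 1) ^ 2 = E * (min 1 (y / 2 ^ n) * ((n : ℝ) + 1) ^ 2) +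
            min 1 (y / 2 ^ n) * (2 * ((2 : ℝ) ^ (n + 1)) ^ (1 - 1 / ((k : ℝ) + 2))) *
            ((n : ℝ) + 1) ^ 2 := by ring
        rw [e]
        linarith
    have hint := int_bound2 (g := M δ) (hMc δ hδp hδ4) (hM0 δ) (y := y) (B := B)
      (mm := fun T => E + if Lg T ≤ 1 / δ ^ (k + 2) then 0 else
        2 * T ^ (1 - 1 / ((k : ℝ) + 2))) hy hgy.1 (fun T hT => hmm T hT) hBn (by
        have h1 : Lg 1 ≤ 1 / δ ^ (k + 2) := by
          have h2 : Lg 1 ≤ 2 := by
            unfold Lg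
            have h3 : Real.log (3 + |1|) = 2 * Real.log 2 := by
              have : (3 : ℝ) + |1| = 2 ^ 2 := by norm_num
              rw [this, Real.log_pow]
              norm_num
            rw [h3]
            have := Real.log_two_lt_d9
            linarith
          have h3 : 12 ≤ LL := by
            have : 4 * ((k : ℝ) + 2) ≤ LL := hΛ1.trans hcase
            linarith
          have h4 : LL ≤ L * LL := le_mul_of_one_le_left hLL0.le hL1.le
          linarith
        rw [if_pos h1, add_zero, hB]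
        have h5 : 1 ≤ 16 * L ^ 2 + B0 := by
          have := one_le_pow₀ (n := 2) hL1.le
          linarith
        have h6 := le_mul_of_one_le_right hE0 h5
        linarith)
    have hpow : y ^ (1 / 2 + δ) = Real.sqrt y * Real.exp Q := by
      rw [Real.rpow_add hy0, ← Real.sqrt_eq_rpow]
      congr 1
      rw [Real.rpow_def_of_pos hy0, ← hL, mul_comm, hδL]
    have hfin := final_bound (K := K) (Q := Q) (LL := LL) (L := L) (B0 := B0) (Ck := Ck) (κ := κ) (E := E)
      (m := Real.log (1 / δ)) (X := Xk k δ) (y := y) (s := Real.sqrt y) (B := B) hK hQ2 hLL1 hLLQ hexpLL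
      hB00 hCk0 hκ0 hm2 hm0.le hX hX0 hE hB hsy0
    refine hgy.2.trans ?_
    rw [hpow]
    have h7 : K * (Real.sqrt y * Real.exp Q) * (∫ t : ℝ, M δ t * wt y t) ≤
        K * (Real.sqrt y * Real.exp Q) * (9 * B) := by
      apply mul_le_mul_of_nonneg_left hint
      positivity
    refine le_trans (add_le_add le_rfl h7) (hfin.trans ?_)
    apply mul_le_mul_of_nonneg_left _ hsy0
    apply Real.exp_le_exp.2
    rw [← hC2]
    have : 0 ≤ 2 * (K + 3 / 2 * Real.exp Λ) * Q := by positivity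
    linarith

end Pool.Agent.N157.GXK
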