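import Pool.Agent.N795.LN.Stm

/-! Project LN (helper795), subtask 2889: rates `u` at distance at most `r` on the torus (helper157). -/

set_option autoImplicit false

namespace Pool.Agent.N795.LN

open Finset Equiv
open Pool.Agent.N795.ST (disp nrm)

namespace N157Ker

variable {d M : ℕ}

theorem disp_inj (x : Fin d → ZMod M) : Function.Injective fun y : Fin d → ZMod M => disp x y := by
  intro y y' h
  funext i
  have h1 := congrFun h i
  simp only [disp] at h1
  have h2 := ZMod.injective_valMinAbs h1
  exact sub_right_injective h2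

theorem symm (x y : Fin d → ZMod M) : nrm (disp x y) = nrm (disp y x) := by
  unfold nrm disp
  congr 1
  funext i
  rw [← ZMod.natAbs_valMinAbs_neg, neg_sub]

open Classical in
/-- the indicator of the pairs at distance at most `r` -/
noncomputable def A (r : ℕ) (x y : Fin d → ZMod M) : ℝ := if nrm (disp x y) ≤ r then 1 else 0

theorem ker_le (r : ℕ) {u : ℝ} (hu : 0 ≤ u) (x y : Fin d → ZMod M) : ker u r x y ≤ u * A r x y := by
  unfold ker A
  by_cases h : nrm (disp x y) ≤ r
  · rw [if_pos h]
    split_ifs <;> linarith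
  · rw [if_neg h, if_neg (fun h' => h h'.2)]
    linarith

theorem le_ker (r : ℕ) {u : ℝ} (hu : 0 ≤ u) (x y : Fin d → ZMod M) :
    u * A r x y - (if x = y then u else 0) ≤ ker u r x y := by
  unfold ker A
  by_cases hxy : x = y
  · rw [if_pos hxy, if_neg (fun h' : x ≠ y ∧ nrm (disp x y) ≤ r => h'.1 hxy)]
    split_ifs <;> linarith
  · by_cases h : nrm (disp x y) ≤ r
    · rw [if_pos h, if_neg hxy, if_pos (show x ≠ y ∧ nrm (disp x y) ≤ r from ⟨hxy, h⟩)]
      linarith
    · rw [if_neg h, if_neg hxy, if_neg (fun h' : x ≠ y ∧ nrm (disp x y) ≤ r => h h'.2)]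
      linarith

theorem card_ball [NeZero M] (r : ℕ) (x : Fin d → ZMod M) :
    ∑ y : Fin d → ZMod M, A r x y ≤ (2 * (r : ℝ) + 1) ^ d := by
  classical
  have e : ∑ y : Fin d → ZMod M, A r x y =
      ((univ.filter fun y : Fin d → ZMod M => nrm (disp x y) ≤ r).card : ℝ) := by
    unfold A
    rw [Finset.sum_boole]
  rw [e]
  have h1 : (univ.filter fun y : Fin d → ZMod M => nrm (disp x y) ≤ r).card ≤
      (Fintype.piFinset fun _ : Fin d => Finset.Icc (-(r : ℤ)) r).card := by
    apply Finset.card_le_card_of_injOn (fun y => disp x y)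
    · intro y hy
      have hy2 : nrm (disp x y) ≤ r := (Finset.mem_filter.1 hy).2
      rw [Finset.mem_coe, Fintype.mem_piFinset]
      intro i
      have h3 : (disp x y i).natAbs ≤ r :=
        le_trans (Finset.le_sup (f := fun i => (disp x y i).natAbs) (mem_univ i)) hy2
      rw [Finset.mem_Icc]
      show -(r : ℤ) ≤ disp x y i ∧ disp x y i ≤ (r : ℤ)
      omega
    · intro y _ y' _ h
      exact disp_inj x h
  have h2 : (Fintype.piFinset fun _ : Fin d => Finset.Icc (-(r : ℤ)) r).card = (2 * r + 1) ^ d := by
    rw [Fintype.card_piFinset, Finset.prod_const, Int.card_Icc, Finset.card_univ, Fintype.card_fin]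
    congr 1
    omega
  rw [h2] at h1
  calc ((univ.filter fun y : Fin d → ZMod M => nrm (disp x y) ≤ r).card : ℝ) ≤
      ((2 * r + 1) ^ d : ℕ) := by exact_mod_cast h1
    _ = _ := by push_cast; ring

/-- the cube with the corner `z` -/
def S (r : ℕ) (z x : Fin d → ZMod M) : Prop := ∀ i, (x i - z i).val ≤ r

theorem card_val [NeZero M] (r : ℕ) (hr : r + 1 ≤ M) :
    (univ.filter fun s : ZMod M => s.val ≤ r).card = r + 1 := by
  classical
  have e : (univ.filter fun s : ZMod M => s.val ≤ r) = (Finset.range (r + 1)).image (fun n : ℕ => (n : ZMod M)) := by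
    ext s
    rw [mem_filter, mem_image]
    constructor
    · rintro ⟨-, h⟩
      exact ⟨s.val, by rw [mem_range]; omega, ZMod.natCast_zmod_val s⟩
    · rintro ⟨n, hn, rfl⟩
      rw [mem_range] at hn
      refine ⟨mem_univ _, ?_⟩
      rw [ZMod.val_natCast_of_lt (by omega)]
      omega
  rw [e, Finset.card_image_of_injOn, card_range]
  intro a ha b hb h
  rw [Finset.mem_coe, mem_range] at ha hb
  have h2 := congrArg ZMod.val h
  simp only at h2
  rwa [ZMod.val_natCast_of_lt (by omega), ZMod.val_natCast_of_lt (by omega)] at h2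

open Classical in
theorem card_S [NeZero M] (r : ℕ) (hr : r + 1 ≤ M) (x : Fin d → ZMod M) :
    (univ.filter fun z : Fin d → ZMod M => S r z x).card = (r + 1) ^ d := by
  have h1 : (univ.filter fun z : Fin d → ZMod M => S r z x).card =
      (Fintype.piFinset fun _ : Fin d => univ.filter fun s : ZMod M => s.val ≤ r).card := by
    apply Finset.card_bij (fun z _ => fun i => x i - z i)
    · intro z hz
      rw [Fintype.mem_piFinset]
      intro i
      rw [mem_filter]
      exact ⟨mem_univ _, (mem_filter.1 hz).2 i⟩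
    · intro z _ z' _ h
      funext i
      exact sub_right_injective (congrFun h i)
    · intro s hs
      refine ⟨fun i => x i - s i, ?_, ?_⟩
      · rw [mem_filter]
        refine ⟨mem_univ _, fun i => ?_⟩
        rw [sub_sub_cancel]
        exact (mem_filter.1 (Fintype.mem_piFinset.1 hs i)).2
      · funext i
        rw [sub_sub_cancel]
  rw [h1, Fintype.card_piFinset, Finset.prod_const, card_val r hr, Finset.card_univ, Fintype.card_fin]

theorem S_dist [NeZero M] {r : ℕ} {z x y : Fin d → ZMod M} (hx : S r z x) (hy : S r z y) :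
    nrm (disp x y) ≤ r := by
  unfold nrm
  apply Finset.sup_le
  intro i _
  have h1 := hx i
  have h2 := hy i
  have e : (((disp x y i : ℤ)) : ZMod M) = (((x i - z i).val : ℤ) - ((y i - z i).val : ℤ) : ℤ) := by
    unfold disp
    rw [ZMod.coe_valMinAbs]
    push_cast
    rw [ZMod.natCast_zmod_val, ZMod.natCast_zmod_val]
    ring
  have h3 := ZMod.natAbs_min_of_le_div_two M _ _ e (by
    unfold disp
    exact ZMod.natAbs_valMinAbs_le _)
  omega

open Classical in
theorem main [NeZero M] (r : ℕ) (hr : r + 1 ≤ M) (W : Finset (Fin d → ZMod M)) :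
    (W.card : ℝ) ^ 2 * ((r : ℝ) + 1) ^ d / Fintype.card (Fin d → ZMod M) ≤
      ∑ x ∈ W, ∑ y ∈ W, A r x y := by
  set N : ℝ := (Fintype.card (Fin d → ZMod M) : ℝ) with hN
  have hN0 : 0 < N := by
    rw [hN]
    exact_mod_cast Fintype.card_pos
  set ww : (Fin d → ZMod M) → ℝ := fun z => ∑ x ∈ W, if S r z x then (1 : ℝ) else 0 with hww
  set B : ℝ := ((r : ℝ) + 1) ^ d with hB
  have hB0 : 0 < B := by positivity
  have hcard : ∀ x : Fin d → ZMod M, ∑ z : Fin d → ZMod M, (if S r z x then (1 : ℝ) else 0) = B := by
    intro x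
    rw [Finset.sum_boole, card_S r hr x]
    push_cast
    rfl
  have h1 : ∑ z, ww z = W.card * B := by
    rw [hww, Finset.sum_comm, Finset.sum_congr rfl (fun x _ => hcard x), Finset.sum_const,
      nsmul_eq_mul]
  have h2 : (∑ z, ww z) ^ 2 ≤ N * ∑ z, ww z ^ 2 := by
    have := sq_sum_le_card_mul_sum_sq (s := (univ : Finset (Fin d → ZMod M))) (f := ww)
    rwa [Finset.card_univ] at this
  have h3 : ∑ z, ww z ^ 2 ≤ B * ∑ x ∈ W, ∑ y ∈ W, A r x y := by
    have e : ∀ z, ww z ^ 2 = ∑ x ∈ W, ∑ y ∈ W, (if S r z x then (1 : ℝ) else 0) * (if S r z y then (1 : ℝ) else 0) := by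
      intro z
      rw [hww, pow_two, Finset.sum_mul_sum]
    rw [Finset.sum_congr rfl (fun z _ => e z), Finset.sum_comm, mul_sum]
    apply Finset.sum_le_sum
    intro x _
    rw [Finset.sum_comm, mul_sum]
    apply Finset.sum_le_sum
    intro y _
    unfold A
    split_ifs with h
    · rw [mul_one, ← hcard x]
      apply Finset.sum_le_sum
      intro z _
      split_ifs <;> simp
    · rw [mul_zero]
      apply le_of_eq
      apply Finset.sum_eq_zero
      intro z _
      split_ifs with hx hy
      · exact absurd (S_dist hx hy) h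
      all_goals simp
  rw [h1] at h2
  have h4 : (W.card * B) ^ 2 ≤ N * (B * ∑ x ∈ W, ∑ y ∈ W, A r x y) :=
    h2.trans (mul_le_mul_of_nonneg_left h3 hN0.le)
  rw [div_le_iff₀ hN0]
  have h5 : B * ((W.card : ℝ) ^ 2 * B) ≤ B * ((∑ x ∈ W, ∑ y ∈ W, A r x y) * N) := by nlinarith
  exact le_of_mul_le_mul_left h5 hB0

end N157Ker

open N157Ker in
theorem ker_le : Ker := by
  classical
  intro d M r _ u hu hr
  constructor
  · intro x
    calc ∑ y, (ker u r x y + ker u r y x) / 2 ≤ ∑ y, u * A r x y := by
          apply Finset.sum_le_sum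
          intro y _
          have h1 := N157Ker.ker_le r hu x y
          have h2 := N157Ker.ker_le r hu y x
          have h3 : A r y x = A r x y := by
            unfold A
            rw [symm y x]
          rw [h3] at h2
          linarith
      _ = u * ∑ y, A r x y := by rw [mul_sum]
      _ ≤ _ := mul_le_mul_of_nonneg_left (card_ball r x) hu
  · intro W
    calc u * ((W.card : ℝ) ^ 2 * ((r : ℝ) + 1) ^ d / Fintype.card (Fin d → ZMod M) - W.card) ≤
        u * (∑ x ∈ W, ∑ y ∈ W, A r x y - W.card) := by
          apply mul_le_mul_of_nonneg_left _ hu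
          have := main r hr W
          linarith
      _ = ∑ x ∈ W, ∑ y ∈ W, (u * A r x y - (if x = y then u else 0)) := by
          have e : ∀ x ∈ W, ∑ y ∈ W, (u * A r x y - (if x = y then u else 0)) =
              u * ∑ y ∈ W, A r x y - u := by
            intro x hx
            rw [Finset.sum_sub_distrib, ← mul_sum, Finset.sum_ite_eq, if_pos hx]
          rw [Finset.sum_congr rfl e, Finset.sum_sub_distrib, ← mul_sum, Finset.sum_const,
            nsmul_eq_mul]
          ring
      _ ≤ _ := by
          apply Finset.sum_le_sum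
          intro x _
          apply Finset.sum_le_sum
          intro y _
          exact le_ker r hu x y


end Pool.Agent.N795.LN
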