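import Pool.Agent.N657.QR.Stm

/-!
# Project QR (helper657), part FOU (helper157): Plancherel on the torus
-/

set_option autoImplicit false

namespace Pool.Agent.N157.QR_FOU

open Pool.Agent.N657.QR

open Finset

variable {d L : ℕ} [NeZero L]

/-- the standard character -/
noncomputable def ps (j : ZMod L) : ℂ := ZMod.stdAddChar (N := L) j

theorem ps_add (a b : ZMod L) : ps (a + b) = ps a * ps b := AddChar.map_add_eq_mul _ a b

theorem ps_zero : ps (0 : ZMod L) = 1 := AddChar.map_zero_eq_one _

theorem norm_ps (a : ZMod L) : ‖ps a‖ = 1 := by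
  unfold ps
  rw [ZMod.stdAddChar_apply]
  exact Circle.norm_coe _

theorem ps_inj {a b : ZMod L} (h : ps a = ps b) : a = b := ZMod.injective_stdAddChar h

theorem ps_mul_conj (a : ZMod L) : ps a * (starRingEnd ℂ) (ps a) = 1 := by
  rw [Complex.mul_conj, Complex.normSq_eq_norm_sq, norm_ps]
  norm_num

theorem ps_neg (a : ZMod L) : ps (-a) = (starRingEnd ℂ) (ps a) := by
  have h1 : ps (-a) * ps a = 1 := by
    rw [← ps_add, neg_add_cancel, ps_zero]
  have h2 := ps_mul_conj a
  calc ps (-a) = ps (-a) * (ps a * (starRingEnd ℂ) (ps a)) := by rw [h2, mul_one]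
    _ = (ps (-a) * ps a) * (starRingEnd ℂ) (ps a) := by ring
    _ = _ := by rw [h1, one_mul]

theorem ps_re (a : ZMod L) : (ps a).re = Real.cos (2 * Real.pi * ((a.val : ℕ) : ℝ) / (L : ℝ)) := by
  unfold ps
  rw [ZMod.stdAddChar_apply, ZMod.toCircle_apply]
  have : (2 * Real.pi * Complex.I * (a.val : ℂ) / (L : ℂ) : ℂ) =
      ((2 * Real.pi * ((a.val : ℕ) : ℝ) / (L : ℝ) : ℝ) : ℂ) * Complex.I := by
    push_cast
    ring
  rw [this, Complex.exp_ofReal_mul_I_re]

/-- the scalar product -/
def dot (k x : Fin d → ZMod L) : ZMod L := ∑ i, k i * x i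

omit [NeZero L] in
theorem dot_add (k x y : Fin d → ZMod L) : dot k (x + y) = dot k x + dot k y := by
  unfold dot
  rw [← sum_add_distrib]
  exact sum_congr rfl fun i _ => by rw [Pi.add_apply, mul_add]

omit [NeZero L] in
theorem dot_sub (k x y : Fin d → ZMod L) : dot k (x - y) = dot k x - dot k y := by
  unfold dot
  rw [← sum_sub_distrib]
  exact sum_congr rfl fun i _ => by rw [Pi.sub_apply, mul_sub]

omit [NeZero L] in
theorem dot_add_left (k k' x : Fin d → ZMod L) : dot (k + k') x = dot k x + dot k' x := by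
  unfold dot
  rw [← sum_add_distrib]
  exact sum_congr rfl fun i _ => by rw [Pi.add_apply, add_mul]

omit [NeZero L] in
theorem dot_ee (k : Fin d → ZMod L) (i : Fin d) : dot k (ee i) = k i := by
  unfold dot ee
  rw [sum_eq_single i]
  · simp
  · intro j _ hj
    simp [Pi.single_eq_of_ne hj]
  · intro h
    exact absurd (mem_univ i) h

omit [NeZero L] in
theorem dot_ee_left (x : Fin d → ZMod L) (i : Fin d) : dot (ee i) x = x i := by
  unfold dot ee
  rw [sum_eq_single i]
  · simp
  · intro j _ hj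
    simp [Pi.single_eq_of_ne hj]
  · intro h
    exact absurd (mem_univ i) h

/-- the cosine and the sine of the momentum `k` -/
noncomputable def cc (k x : Fin d → ZMod L) : ℝ := (ps (dot k x)).re

noncomputable def ss (k x : Fin d → ZMod L) : ℝ := (ps (dot k x)).im

theorem ps_shift (k x : Fin d → ZMod L) (i : Fin d) :
    ps (dot k (x + ee i)) + ps (dot k (x - ee i)) = ps (dot k x) * ((2 * (ps (k i)).re : ℝ) : ℂ) := by
  rw [dot_add, dot_sub, dot_ee, sub_eq_add_neg, ps_add, ps_add, ps_neg, ← mul_add]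
  congr 1
  apply Complex.ext
  · simp
    ring
  · simp

theorem lap_cc (k x : Fin d → ZMod L) : lap (cc k) x = lam k * cc k x := by
  unfold lap lam
  rw [sum_mul]
  apply sum_congr rfl
  intro i _
  have h := congrArg Complex.re (ps_shift k x i)
  rw [Complex.add_re, Complex.mul_re, Complex.ofReal_re, Complex.ofReal_im, mul_zero, sub_zero,
    ps_re (k i)] at h
  have h1 : cc k (x + ee i) = (ps (dot k (x + ee i))).re := rfl
  have h2 : cc k (x - ee i) = (ps (dot k (x - ee i))).re := rfl
  have h3 : cc k x = (ps (dot k x)).re := rfl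
  rw [h1, h2, h3]
  linear_combination -h

theorem lap_ss (k x : Fin d → ZMod L) : lap (ss k) x = lam k * ss k x := by
  unfold lap lam
  rw [sum_mul]
  apply sum_congr rfl
  intro i _
  have h := congrArg Complex.im (ps_shift k x i)
  rw [Complex.add_im, Complex.mul_im, Complex.ofReal_re, Complex.ofReal_im, mul_zero, zero_add,
    ps_re (k i)] at h
  have h1 : ss k (x + ee i) = (ps (dot k (x + ee i))).im := rfl
  have h2 : ss k (x - ee i) = (ps (dot k (x - ee i))).im := rfl
  have h3 : ss k x = (ps (dot k x)).im := rfl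
  rw [h1, h2, h3]
  linear_combination -h

theorem lam_pos (k : Fin d → ZMod L) (hk : k ≠ 0) : 0 < lam k := by
  have hle : ∀ i, (ps (k i)).re ≤ 1 := by
    intro i
    have := Complex.re_le_norm (ps (k i))
    rwa [norm_ps] at this
  obtain ⟨i, hi⟩ := Function.ne_iff.1 hk
  unfold lam
  apply sum_pos'
  · intro j _
    rw [← ps_re]
    have := hle j
    linarith
  · refine ⟨i, mem_univ _, ?_⟩
    rw [← ps_re]
    have hlt : (ps (k i)).re < 1 := by
      refine lt_of_le_of_ne (hle i) fun h => ?_
      apply hi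
      have hn : (ps (k i)).re ^ 2 + (ps (k i)).im ^ 2 = 1 := by
        have h2 := norm_ps (k i)
        have h3 := Complex.sq_norm (ps (k i))
        rw [h2, Complex.normSq_apply] at h3
        linarith
      have him : (ps (k i)).im = 0 := by
        rw [h] at hn
        have : (ps (k i)).im ^ 2 = 0 := by linarith
        exact pow_eq_zero_iff (two_ne_zero) |>.1 this
      have h4 : ps (k i) = ps (0 : ZMod L) := by
        rw [ps_zero]
        exact Complex.ext h him
      exact ps_inj h4
    linarith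

theorem cs_sq (k x : Fin d → ZMod L) : cc k x ^ 2 + ss k x ^ 2 = 1 := by
  have h2 := norm_ps (dot k x)
  have h3 := Complex.sq_norm (ps (dot k x))
  rw [h2, Complex.normSq_apply] at h3
  unfold cc ss
  linarith

theorem sum_char (z : Fin d → ZMod L) :
    ∑ k : Fin d → ZMod L, ps (dot k z) = if z = 0 then (Fintype.card (Fin d → ZMod L) : ℂ) else 0 := by
  split_ifs with hz
  · rw [hz]
    have : ∀ k : Fin d → ZMod L, ps (dot k (0 : Fin d → ZMod L)) = 1 := by
      intro k
      have : dot k (0 : Fin d → ZMod L) = 0 := by simp [dot]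
      rw [this, ps_zero]
    rw [sum_congr rfl fun k _ => this k]
    simp
  · obtain ⟨i, hi⟩ := Function.ne_iff.1 hz
    have h1 : ∑ k : Fin d → ZMod L, ps (dot (k + ee i) z) = ∑ k : Fin d → ZMod L, ps (dot k z) :=
      Fintype.sum_equiv (Equiv.addRight (ee i : Fin d → ZMod L)) _ _ (fun k => rfl)
    have h2 : ∑ k : Fin d → ZMod L, ps (dot (k + ee i) z) =
        (∑ k : Fin d → ZMod L, ps (dot k z)) * ps (z i) := by
      rw [sum_mul]
      apply sum_congr rfl
      intro k _
      rw [dot_add_left, dot_ee_left, ps_add]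
    rw [h2] at h1
    have h3 : ps (z i) ≠ 1 := by
      intro h
      rw [← ps_zero (L := L)] at h
      exact hi (ps_inj h)
    have h4 : (∑ k : Fin d → ZMod L, ps (dot k z)) * (ps (z i) - 1) = 0 := by
      linear_combination h1
    rcases mul_eq_zero.1 h4 with h5 | h5
    · exact h5
    · exact absurd (sub_eq_zero.1 h5) h3

theorem ortho (x y : Fin d → ZMod L) : ∑ k : Fin d → ZMod L, (cc k x * cc k y + ss k x * ss k y) =
    if x = y then (Fintype.card (Fin d → ZMod L) : ℝ) else 0 := by
  have h1 := congrArg Complex.re (sum_char (x - y))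
  rw [Complex.re_sum] at h1
  have h2 : ∀ k : Fin d → ZMod L, (ps (dot k (x - y))).re = cc k x * cc k y + ss k x * ss k y := by
    intro k
    rw [dot_sub, sub_eq_add_neg, ps_add, ps_neg, Complex.mul_re, Complex.conj_re, Complex.conj_im]
    unfold cc ss
    ring
  rw [sum_congr rfl fun k _ => h2 k] at h1
  rw [h1]
  by_cases h : x = y
  · rw [if_pos (sub_eq_zero.2 h), if_pos h]
    exact Complex.natCast_re _
  · rw [if_neg (fun h' => h (sub_eq_zero.1 h')), if_neg h]
    simp

/-- the quadratic form of the kernel -/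
def BB (G : (Fin d → ZMod L) → (Fin d → ZMod L) → ℝ) (f : (Fin d → ZMod L) → ℝ) : ℝ :=
  ∑ x, ∑ y, f x * f y * G x y

theorem planch (G : (Fin d → ZMod L) → (Fin d → ZMod L) → ℝ) :
    ∑ k, (BB G (cc k) + BB G (ss k)) = (Fintype.card (Fin d → ZMod L) : ℝ) * ∑ x, G x x := by
  unfold BB
  have h1 : ∀ k : Fin d → ZMod L, (∑ x, ∑ y, cc k x * cc k y * G x y) +
      (∑ x, ∑ y, ss k x * ss k y * G x y) =
      ∑ x, ∑ y, (cc k x * cc k y + ss k x * ss k y) * G x y := by
    intro k
    rw [← sum_add_distrib]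
    apply sum_congr rfl
    intro x _
    rw [← sum_add_distrib]
    apply sum_congr rfl
    intro y _
    ring
  rw [sum_congr rfl fun k _ => h1 k, sum_comm, mul_sum]
  apply sum_congr rfl
  intro x _
  rw [sum_comm]
  have h2 : ∀ y : Fin d → ZMod L, ∑ k : Fin d → ZMod L,
      (cc k x * cc k y + ss k x * ss k y) * G x y =
      if x = y then (Fintype.card (Fin d → ZMod L) : ℝ) * G x x else 0 := by
    intro y
    rw [← sum_mul, ortho]
    split_ifs with h
    · rw [h]
    · rw [zero_mul]
  rw [sum_congr rfl fun y _ => h2 y, sum_ite_eq, if_pos (mem_univ x)]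

theorem main : S_FOU := by
  intro d L _ G κ hG
  set N : ℝ := (Fintype.card (Fin d → ZMod L) : ℝ) with hN
  have hN0 : 0 < N := by
    rw [hN]
    exact_mod_cast Fintype.card_pos
  have h0 : ∀ x : Fin d → ZMod L, cc 0 x = 1 ∧ ss 0 x = 0 := by
    intro x
    unfold cc ss
    have : dot (0 : Fin d → ZMod L) x = 0 := by simp [dot]
    rw [this, ps_zero]
    simp
  have hB0 : BB G (cc 0) + BB G (ss 0) = ∑ x, ∑ y, G x y := by
    unfold BB
    have e1 : ∑ x, ∑ y, ss 0 x * ss 0 y * G x y = 0 := by
      apply sum_eq_zero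
      intro x _
      apply sum_eq_zero
      intro y _
      rw [(h0 x).2]
      ring
    rw [e1, add_zero]
    apply sum_congr rfl
    intro x _
    apply sum_congr rfl
    intro y _
    rw [(h0 x).1, (h0 y).1]
    ring
  have hB : ∀ k : Fin d → ZMod L, k ≠ 0 →
      BB G (cc k) + BB G (ss k) ≤ κ * (1 / Real.sqrt (lam k)) * N := by
    intro k hk
    have h1 := hG (lam k) (cc k) (lam_pos k hk) (fun x => lap_cc k x)
    have h2 := hG (lam k) (ss k) (lam_pos k hk) (fun x => lap_ss k x)
    have h3 : (∑ x, cc k x ^ 2) + ∑ x, ss k x ^ 2 = N := by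
      rw [← sum_add_distrib, sum_congr rfl fun x _ => cs_sq k x, hN]
      simp
    unfold BB
    calc _ ≤ κ / Real.sqrt (lam k) * (∑ x, cc k x ^ 2) + κ / Real.sqrt (lam k) * ∑ x, ss k x ^ 2 :=
          add_le_add h1 h2
      _ = κ / Real.sqrt (lam k) * N := by rw [← mul_add, h3]
      _ = _ := by ring
  have hp := planch G
  rw [← add_sum_erase univ _ (mem_univ (0 : Fin d → ZMod L)), hB0] at hp
  have h1 : ∑ k ∈ univ.erase (0 : Fin d → ZMod L), (BB G (cc k) + BB G (ss k)) ≤
      ∑ k ∈ univ.erase (0 : Fin d → ZMod L), κ * (1 / Real.sqrt (lam k)) * N :=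
    sum_le_sum fun k hk => hB k (ne_of_mem_erase hk)
  rw [← sum_mul, ← mul_sum] at h1
  rw [← hN] at hp
  have h2 : N * ∑ x, G x x ≤ (∑ x, ∑ y, G x y) +
      (κ * ∑ k ∈ univ.erase (0 : Fin d → ZMod L), 1 / Real.sqrt (lam k)) * N := by
    rw [← hp]
    linarith
  have h3 : (∑ x, ∑ y, G x y) = (∑ x, ∑ y, G x y) / N * N := by
    field_simp
  rw [h3, ← add_mul, mul_comm] at h2
  exact le_of_mul_le_mul_right h2 hN0

end Pool.Agent.N157.QR_FOU
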