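import Pool.Agent.N906.SZ.Stm

/-!
# Project SZ (helper906), subtask 3071: the integer `|D| / N₆` and minimal models (helper157)
-/

set_option autoImplicit false

namespace Pool.Agent.N157.SZ

open Finset
open Pool.Agent.N906.SZ

/-- `p ^ fe p a` divides the discriminant -/
theorem pow_fe_dvd {a b : ℤ} {p : ℕ} (hp : p.Prime) (h5 : 5 ≤ p) (hD : (p : ℤ) ∣ Dd a b) :
    (p : ℤ) ^ fe p a ∣ Dd a b := by
  unfold fe
  rw [if_neg (by omega)]
  split_ifs with ha
  · have hpi : Prime (p : ℤ) := Nat.prime_iff_prime_int.1 hp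
    have h27 : (p : ℤ) ∣ 27 * b ^ 2 := by
      have : 27 * b ^ 2 = 4 * a ^ 3 - Dd a b := by unfold Dd; ring
      rw [this]
      exact dvd_sub (Dvd.dvd.mul_left (dvd_pow ha (by norm_num)) 4) hD
    have hb : (p : ℤ) ∣ b := by
      rcases hpi.dvd_or_dvd h27 with h | h
      · exfalso
        have h3 : (p : ℤ) ∣ 3 ^ 3 := by
          have e : (27 : ℤ) = 3 ^ 3 := by norm_num
          rwa [e] at h
        have h4 : (p : ℤ) ∣ 3 := hpi.dvd_of_dvd_pow h3
        have h6 := Int.le_of_dvd (by norm_num) h4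
        omega
      · exact hpi.dvd_of_dvd_pow h
    unfold Dd
    apply dvd_sub
    · apply Dvd.dvd.mul_left
      obtain ⟨c, rfl⟩ := ha
      exact ⟨p * c ^ 3, by ring⟩
    · apply Dvd.dvd.mul_left
      exact pow_dvd_pow_of_dvd hb 2
  · rw [pow_one]
    exact hD

theorem nc_eq (a b : ℤ) :
    Nc a b = ∏ p ∈ (Dd a b).natAbs.primeFactors.filter (fun p => 5 ≤ p), p ^ fe p a := by
  unfold Nc
  apply prod_congr rfl
  intro p hp
  have h5 : 5 ≤ p := (mem_filter.1 hp).2
  simp only [fe]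
  rw [if_neg (show ¬ p < 5 by omega)]
  split_ifs
  · rfl
  · rw [pow_one]

theorem nc_dvd {a b : ℤ} : Nc a b ∣ (Dd a b).natAbs := by
  rw [nc_eq]
  apply Finset.prod_dvd_of_isRelPrime
  · intro p hp q hq hpq
    have h1 := Nat.prime_of_mem_primeFactors (mem_filter.1 hp).1
    have h2 := Nat.prime_of_mem_primeFactors (mem_filter.1 hq).1
    exact Nat.coprime_iff_isRelPrime.1 (Nat.Coprime.pow _ _ ((Nat.coprime_primes h1 h2).2 hpq))
  · intro p hp
    have h1 := Nat.prime_of_mem_primeFactors (mem_filter.1 hp).1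
    have h2 := Nat.dvd_of_mem_primeFactors (mem_filter.1 hp).1
    have h3 := pow_fe_dvd (a := a) (b := b) h1 (mem_filter.1 hp).2 (Int.natCast_dvd.2 h2)
    have h4 : ((p ^ fe p a : ℕ) : ℤ) ∣ Dd a b := by exact_mod_cast h3
    exact Int.natCast_dvd.1 h4

/-- GAIN -/
theorem gain : S_GAIN := by
  intro a b hD
  obtain ⟨n, hn⟩ := nc_dvd (a := a) (b := b)
  have hD0 : (Dd a b).natAbs ≠ 0 := Int.natAbs_ne_zero.2 hD
  have hn0 : n ≠ 0 := by
    rintro rfl
    rw [mul_zero] at hn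
    exact hD0 hn
  refine ⟨n, Nat.one_le_iff_ne_zero.2 hn0, ?_, by rw [hn, mul_comm]⟩
  intro p hp
  have hpp := Nat.prime_of_mem_primeFactors hp
  have hpn := Nat.dvd_of_mem_primeFactors hp
  have h1 : p ^ n.factorization p ∣ n := Nat.ordProj_dvd n p
  have h2 : p ^ fe p a ∣ Nc a b := by
    by_cases h5 : 5 ≤ p
    · rw [nc_eq]
      apply Finset.dvd_prod_of_mem (fun p => p ^ fe p a)
      rw [mem_filter, Nat.mem_primeFactors]
      exact ⟨⟨hpp, by rw [hn]; exact hpn.mul_left _, hD0⟩, h5⟩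
    · have : fe p a = 0 := by
        unfold fe
        rw [if_pos (by omega)]
      rw [this, pow_zero]
      exact one_dvd _
  have h3 : p ^ (n.factorization p + fe p a) ∣ (Dd a b).natAbs := by
    rw [hn, mul_comm, pow_add]
    exact mul_dvd_mul h1 h2
  have h4 : ((p ^ (n.factorization p + fe p a) : ℕ) : ℤ) ∣ Dd a b := Int.natCast_dvd.2 h3
  exact_mod_cast h4

/-- the definition of minimality by changes of variables over the rational numbers -/
def IsMinimal' (a b : ℤ) : Prop :=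
  Dd a b ≠ 0 ∧ ∀ (u : ℚ) (a' b' : ℤ), u ≠ 0 → (a' : ℚ) = u ^ 4 * a → (b' : ℚ) = u ^ 6 * b →
    |Dd a b| ≤ |Dd a' b'|

theorem isMinimal_iff (a b : ℤ) : IsMinimal' a b ↔ Mn a b := by
  unfold IsMinimal' Mn
  constructor
  · rintro ⟨hD, h⟩
    refine ⟨hD, ?_⟩
    rintro p hp ⟨⟨a', ha⟩, ⟨b', hb⟩⟩
    have hp0 : (p : ℚ) ≠ 0 := by exact_mod_cast hp.ne_zero
    have h1 := h (1 / p) a' b' (by positivity) (by rw [ha]; push_cast; field_simp)
      (by rw [hb]; push_cast; field_simp)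
    have e : Dd a b = (p : ℤ) ^ 12 * Dd a' b' := by
      unfold Dd
      rw [ha, hb]
      ring
    have hD' : Dd a' b' ≠ 0 := by
      intro h0
      apply hD
      rw [e, h0, mul_zero]
    rw [e, abs_mul, abs_of_nonneg (by positivity : (0 : ℤ) ≤ (p : ℤ) ^ 12)] at h1
    have h2 : (2 : ℤ) ≤ (p : ℤ) ^ 12 := by
      have hp2 : (2 : ℤ) ≤ p := by exact_mod_cast hp.two_le
      calc (2 : ℤ) ≤ (p : ℤ) := hp2
        _ ≤ (p : ℤ) ^ 12 := le_self_pow₀ (by linarith) (by norm_num)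
    have h3 : 0 < |Dd a' b'| := abs_pos.2 hD'
    nlinarith
  · rintro ⟨hD, h⟩
    refine ⟨hD, ?_⟩
    intro u a' b' hu ha hb
    have hden : (u.den : ℚ) ≠ 0 := by exact_mod_cast u.den_ne_zero
    have hu2 : u * u.den = u.num := Rat.mul_den_eq_num u
    have hcop : IsCoprime u.num (u.den : ℤ) := by
      rw [Int.isCoprime_iff_gcd_eq_one]
      have := u.reduced
      rwa [Nat.Coprime, ← Int.natAbs_natCast u.den] at this
    have ha2 : a' * (u.den : ℤ) ^ 4 = u.num ^ 4 * a := by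
      have : (a' : ℚ) * (u.den : ℚ) ^ 4 = (u.num : ℚ) ^ 4 * a := by
        rw [ha, ← hu2]
        ring
      exact_mod_cast this
    have hb2 : b' * (u.den : ℤ) ^ 6 = u.num ^ 6 * b := by
      have : (b' : ℚ) * (u.den : ℚ) ^ 6 = (u.num : ℚ) ^ 6 * b := by
        rw [hb, ← hu2]
        ring
      exact_mod_cast this
    have hda : (u.den : ℤ) ^ 4 ∣ a := by
      apply (IsCoprime.pow (m := 4) (n := 4) hcop.symm).dvd_of_dvd_mul_left
      rw [← ha2]
      exact Dvd.intro_left _ rfl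
    have hdb : (u.den : ℤ) ^ 6 ∣ b := by
      apply (IsCoprime.pow (m := 6) (n := 6) hcop.symm).dvd_of_dvd_mul_left
      rw [← hb2]
      exact Dvd.intro_left _ rfl
    have hone : u.den = 1 := by
      by_contra hne
      obtain ⟨p, hp, hpd⟩ := Nat.exists_prime_and_dvd hne
      have hpd' : (p : ℤ) ∣ (u.den : ℤ) := by exact_mod_cast hpd
      exact h p hp ⟨(pow_dvd_pow_of_dvd hpd' 4).trans hda, (pow_dvd_pow_of_dvd hpd' 6).trans hdb⟩
    rw [hone] at ha2 hb2
    have hnum : u.num ≠ 0 := Rat.num_ne_zero.2 hu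
    have e : Dd a' b' = u.num ^ 12 * Dd a b := by
      have ea : a' = u.num ^ 4 * a := by
        rw [← ha2]
        ring
      have eb : b' = u.num ^ 6 * b := by
        rw [← hb2]
        ring
      rw [ea, eb]
      unfold Dd
      ring
    rw [e, abs_mul]
    have h1 : (1 : ℤ) ≤ |u.num ^ 12| := Int.one_le_abs (pow_ne_zero _ hnum)
    nlinarith [abs_nonneg (Dd a b)]

end Pool.Agent.N157.SZ
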