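import Pool.Agent.N709.UM.Stm

set_option autoImplicit false

open Pool.Agent.N709.UM

universe u

namespace Pool.Agent.N157.UMREM

theorem PN.nonneg {G : Type u} [Group G] {N : G → ℝ} (h : PN N) (g : G) : 0 ≤ N g := by
  have h1 := h.mul g g⁻¹
  rw [mul_inv_cancel, h.one, h.inv] at h1
  linarith

theorem rw_inl {G : Type u} [Group G] (ρ : G → ℝ) (u : G) (w : List (G ⊕ (ℕ × Bool))) :
    rw ρ (Sum.inl u :: w) = ρ u + rw ρ w := rfl

theorem rw_inr {G : Type u} [Group G] (ρ : G → ℝ) (j : ℕ) (s : Bool)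
    (w : List (G ⊕ (ℕ × Bool))) :
    rw ρ (Sum.inr (j, s) :: w) = rw ρ w := by
  show 0 + rw ρ w = rw ρ w
  simp

theorem cnt_inl {G : Type u} (j : ℕ) (u : G) (w : List (G ⊕ (ℕ × Bool))) :
    cnt j (Sum.inl u :: w) = cnt j w := rfl

theorem cnt_inr {G : Type u} (j i : ℕ) (s : Bool) (w : List (G ⊕ (ℕ × Bool))) :
    cnt j (Sum.inr (i, s) :: w) = (if i ≤ j then 1 else 0) + cnt j w := rfl

theorem ev_inl {G : Type u} [Group G] (y : ℕ → G) (u : G) (w : List (G ⊕ (ℕ × Bool))) :
    ev y (Sum.inl u :: w) = u * ev y w := rfl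

theorem ev_inr {G : Type u} [Group G] (y : ℕ → G) (j : ℕ) (s : Bool)
    (w : List (G ⊕ (ℕ × Bool))) :
    ev y (Sum.inr (j, s) :: w) = (if s then y j else (y j)⁻¹) * ev y w := rfl

theorem Bel.tail {G : Type u} {k : ℕ} {a : G ⊕ (ℕ × Bool)} {w : List (G ⊕ (ℕ × Bool))}
    (h : Bel k (a :: w)) : Bel k w := fun j s hj => h j s (List.mem_cons_of_mem _ hj)

theorem Bel.cons_inl {G : Type u} {k : ℕ} {a : G} {w : List (G ⊕ (ℕ × Bool))}
    (h : Bel k w) : Bel k (Sum.inl a :: w) := by
  intro j s hj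
  rcases List.mem_cons.1 hj with h1 | h1
  · cases h1
  · exact h j s h1

theorem Bel.cons_inr {G : Type u} {k i : ℕ} {b : Bool} {w : List (G ⊕ (ℕ × Bool))}
    (hi : i < k) (h : Bel k w) : Bel k (Sum.inr (i, b) :: w) := by
  intro j s hj
  rcases List.mem_cons.1 hj with h1 | h1
  · cases h1
    exact hi
  · exact h j s h1

theorem rem : Rem.{u} := by
  intro G _ ρ hρ r t ht y k D h1 h2 w
  induction w with
  | nil =>
    intro hB hc hr
    refine ⟨[], 0, ?_, fun j _ => le_rfl, ?_, ?_, ?_⟩
    · intro j s hj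
      cases hj
    · simp [cnt]
    · simp [rw, wt, cnt]
    · simp [ev]
  | cons a w ih =>
    intro hB hc hr
    rcases a with u | ⟨j, s⟩
    · rw [cnt_inl] at hc
      rw [rw_inl] at hr
      have hu := PN.nonneg hρ u
      obtain ⟨w', M, b1, b2, b3, b4, b5⟩ := ih (Bel.tail hB) hc (by linarith)
      refine ⟨Sum.inl u :: w', M, Bel.cons_inl b1, ?_, ?_, ?_, ?_⟩
      · intro i hi
        rw [cnt_inl, cnt_inl]
        exact b2 i hi
      · rw [cnt_inl, cnt_inl]
        exact b3
      · rw [rw_inl, rw_inl, cnt_inl]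
        linarith
      · rw [ev_inl, ev_inl, b5, mul_assoc]
    · have hj : j < k + 1 := hB j s (List.mem_cons_self)
      have hjk : j ≤ k := Nat.lt_succ_iff.1 hj
      rw [cnt_inr, if_pos hjk] at hc
      rw [rw_inr] at hr
      obtain ⟨w', M, b1, b2, b3, b4, b5⟩ := ih (Bel.tail hB) (by omega) hr
      have hck : (cnt k w : ℝ) ≤ k := by
        have : cnt k w ≤ k := by omega
        exact_mod_cast this
      have hct : (cnt k w : ℝ) * t ≤ k * t := mul_le_mul_of_nonneg_right hck ht
      rcases lt_or_eq_of_le hjk with hlt | heq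
      · refine ⟨Sum.inr (j, s) :: w', M, Bel.cons_inr hlt b1, ?_, ?_, ?_, ?_⟩
        · intro i hi
          rw [cnt_inr, cnt_inr]
          have := b2 i hi
          omega
        · rw [cnt_inr, cnt_inr, if_pos hjk]
          omega
        · rw [rw_inr, rw_inr, cnt_inr, if_pos hjk]
          push_cast
          linarith
        · rw [ev_inr, ev_inr, b5, mul_assoc]
      · subst heq
        have hcD : ev y w' ∈ D := h1 w' b1 (by omega) (by linarith)
        obtain ⟨c1, c2⟩ := h2 _ hcD
        have key : ∃ (u : G) (M' : ℤ), ρ u ≤ t ∧ M'.natAbs ≤ M.natAbs + 1 ∧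
            (if s then y j else (y j)⁻¹) * (ev y w' * y j ^ M) = u * ev y w' * y j ^ M' := by
          rcases s with _ | _
          · refine ⟨_, M - 1, c2, by omega, ?_⟩
            simp only [Bool.false_eq_true, if_false]
            rw [zpow_sub_one, ← (Commute.zpow_right (Commute.refl (y j)) M).inv_left.eq]
            group
          · refine ⟨_, M + 1, c1, by omega, ?_⟩
            simp only [if_true]
            rw [zpow_add_one, ← (Commute.zpow_right (Commute.refl (y j)) M).eq]
            group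
        obtain ⟨u, M', d1, d2, d3⟩ := key
        refine ⟨Sum.inl u :: w', M', Bel.cons_inl b1, ?_, ?_, ?_, ?_⟩
        · intro i hi
          rw [cnt_inl, cnt_inr]
          have := b2 i hi
          omega
        · rw [cnt_inl, cnt_inr, if_pos le_rfl]
          omega
        · rw [rw_inl, rw_inr, cnt_inr, if_pos le_rfl]
          push_cast
          linarith
        · rw [ev_inr, ev_inl, b5, d3]

end Pool.Agent.N157.UMREM

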